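import Pool.Agent.R898.ZCN

/-!
# Injectivity of the Albanese map: regular varieties and products of curves

The setting: `𝒱` is a class of smooth projective varieties over a field, closed under products, `C`
stands for the Chow groups with rational coefficients, `W` for a Weil cohomology theory, for example
singular cohomology. The field is algebraically closed in the applications, for example the field of
algebraic numbers.

The assumptions (`IsAbelianType`), which are known for the class `𝒱` of all `X` which are retracts
(`Retract`) of products of curves, and `S` the class of the pairs `(A, graph of -1)`, `A` an abelian
variety: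

* zero-cycles on `X × Y` are sums of products of zero-cycles;
* a divisorial correspondence from `X` to `Y` which acts as zero on `H^(2 dim X - 1)(X)` kills the
  zero-cycles of degree zero (theory of the Albanese variety);
* `𝒱` is generated by curves, products and retracts;
* each pair `(A, ι)` in `S` consists of a variety and a symmetric correspondence `ι` with
  `ι ∘ ι = Δ` which acts as `(-1)^j` on `H^j(A)`; `Δ + ι` factors through a variety without odd
  cohomology of the dimension of `A` (the Kummer variety); `S` is closed under products; all varieties
  in `𝒱` are retracts of varieties of `S`.

`𝒱` contains all varieties dominated by products of curves. `AlbInj W X` says that the Albanese map is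
injective on zero-cycles of degree zero with rational coefficients (over algebraically closed fields
this is equivalent to the injectivity with integral coefficients, by Roitman's theorem). The
Albanese kernel is described as the set of the zero-cycles of degree zero which are mapped to zero by
all divisorial correspondences.

The theorem: the following are equivalent.

1. The Albanese map is injective for all varieties in `𝒱`.
2. It is injective for the products of two curves.
3. All zero-cycles of degree zero are zero on the varieties in `𝒱` with `H^1(X) = 0`.
4. The same for the varieties in `𝒱` with `H^j(X) = 0` for all odd `j`.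
5. For `(A, ι)` in `S` the symmetric zero-cycles of degree zero on `A` are zero.
6. `z × w = 0` for all zero-cycles `z`, `w` of degree zero on varieties `X`, `Y` in `𝒱`.
-/

open Pool.Agent.H914 Pool.Agent.R903 Pool.Agent.R898.HL Pool.Agent.R898.EV Pool.Agent.R898.ZC

universe u v w

/-- The Albanese map of regular varieties and of all varieties. -/
theorem Pool.Agent.Results.MP_2eeeac_ag.RegularVarieties.result {k : Type u} [Field k]
    {𝒱 : VarClass k} (C : ChowTheory.{u, v} 𝒱) (hPol : C.Polarized) (W : WeilTheory.{u, v, w} C)
    (S : ∀ A : 𝒱.Obj, C.CH (A.prod A) → Prop) (hS : IsAbelianType W S) :
    [∀ X : 𝒱.Obj, AlbInj W X,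
      ∀ X Y : 𝒱.Obj, X.dim = 1 → Y.dim = 1 → AlbInj W (X.prod Y),
      ∀ X : 𝒱.Obj, Regular W X → NoHom W X X.dim,
      ∀ X : 𝒱.Obj, NoOdd W X → NoHom W X X.dim,
      ∀ A ι, S A ι → NoFixed (C.act ι) (homTriv W A A.dim),
      ∀ X Y : 𝒱.Obj, ProductsZero W X Y].TFAE :=
  tfae' hPol hS
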