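import Pool.Agent.R910.Pow.Ruled

/-!
# MP_2eeeac_ag: the Albanese kernel and squares of divisors on ruled threefolds

Let `k` be an algebraic closure of `ℚ` in `ℂ`. For a smooth projective variety `X` over `k` let `CH ^ i (X)` be the Chow
group with rational coefficients and consider the Abel-Jacobi map from the homologically trivial classes in
`CH ^ i (X)` to the intermediate Jacobian `J ^ i (X)`, tensored with `ℚ`. For zero-cycles it is the Albanese map, and by
Roitman's theorem Q1 is the question whether it is injective, with rational coefficients, for all `X`.

**Theorem.** These are equivalent.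

1. The Albanese map is injective on the zero-cycles of degree zero on all `X`.
2. The Albanese map is injective on the zero-cycles of degree zero on all surfaces.
3. The Abel-Jacobi map is injective on the homologically trivial classes in `CH ^ 2 (Y)` for all threefolds `Y` which are
   projective bundles of vector bundles of rank two on surfaces.
4. If `D` is a divisor class on such a threefold `Y` and `D ^ 2` is homologically trivial and in the kernel of the
   Abel-Jacobi map, then `D ^ 2 = 0` in `CH ^ 2 (Y)`.

So the conjecture for all zero-cycles is a statement on the square of one divisor class on threefolds.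

In the Lean statement `𝒮` is the set of all varieties, and these structures collect known theorems.

* `AJData.IsFunctorial`: the Abel-Jacobi map is compatible with pull-back, push-forward and products.
* `HasAJSections`: if `dim X > 2 j + 2`, every `w` in `CH_j(X)` is the push-forward of a class on a smooth hyperplane
  section `Z`, and the push-forward `J(Z) → J(X)` is injective there by the weak Lefschetz theorem (used for `j = 0`).
* `HasSurfaceFacts.serre`: each zero-cycle `w` of degree zero on a surface `S` is the second Chern class of a vector
  bundle `E` of rank two with `c_1(E) = 0`. Indeed let `C` be a smooth ample curve through the support of `w`, `A = m C` with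
  `m` large, and let `Z` be a reduced divisor on `C` in the class of `m ^ 2 C|_C + w`. Since `H ^ 0 (K - 2 A) = 0`, the
  condition of Cayley and Bacharach is void and Serre's construction gives an extension
  `0 → O(A) → E → I_Z(- A) → 0` with `E` locally free, and `c_2(E) = Z - A ^ 2 = w`.
* `HasSurfaceFacts.divisors`: the Abel-Jacobi map is injective on divisor classes.
* `IsRuledThreefold`: the projective bundle formula for the bundle of lines `q : Y → S` in `E`, `ξ = c_1(O(1))`.

Proof of 4 ⇒ 2: if `w` is in the Albanese kernel of `S`, let `E` be as above. Then `D = ξ` satisfies `D ^ 2 = - q^* w`, which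
is in the kernel of the Abel-Jacobi map, so that `q^* w = 0` and `w = q_*(ξ q^* w) = 0`.
-/

open CategoryTheory AlgebraicGeometry
open Pool.Agent.H914 Pool.Agent.H914.VarClass Pool.Agent.H914.VarClass.Obj

universe u v w

namespace Pool.Agent.Results.MP_2eeeac_ag.SquaresOfDivisors

open Pool.Agent.R903 Pool.Agent.R910.Nil Pool.Agent.R910.Pow

/-- **The Albanese maps are injective, rationally, if and only if the Abel-Jacobi map is injective on squares of
divisor classes on ruled threefolds.** -/
theorem result {k : Type u} [Field k] {𝒱 : VarClass k} {C : ChowTheory.{u, v} 𝒱}
    (A : AJData.{u, v, w} C) (hA : A.IsFunctorial) (𝒮 : Set 𝒱.Obj)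
    (hS : HasAJSections A 𝒮) (hF : HasSurfaceFacts A 𝒮) :
    List.TFAE [
      ∀ X ∈ 𝒮, AJInjectiveIn A X 0,
      ∀ S ∈ 𝒮, S.dim = 2 → AJInjectiveIn A S 0,
      AJInjectiveOnRuled A 𝒮,
      AJInjectiveOnSquares A 𝒮] :=
  squares_tfae hA hS hF

end Pool.Agent.Results.MP_2eeeac_ag.SquaresOfDivisors
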